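import Pool.Agent.H97.SHL.Targets

/-!
Short lines at the scale of SETH (MP_c62aed_lc): row (AL1), the components of the density depend
on few coordinates and have mean zero (helper7).
-/

set_option autoImplicit false

namespace Pool.Agent.H7.SHL

open Finset Pool.Agent.H97.SHL

theorem fA_congr {m : ℕ} (q : ℕ) (T : Finset (Fin m)) (y y' : Fin m → Fin q)
    (h : ∀ i ∈ T, y i = y' i) : fA q T y = fA q T y' := by
  have he : Set.EqOn y y' (T : Set (Fin m)) := fun i hi => h i (mem_coe.1 hi)
  have h1 : Set.InjOn y (T : Set (Fin m)) ↔ Set.InjOn y' (T : Set (Fin m)) := he.injOn_iff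
  unfold fA
  simp only [h1]

theorem fA_sum {m : ℕ} (q : ℕ) (T : Finset (Fin m)) (i : Fin m) (hi : i ∉ T)
    (hT : T.card + 1 ≤ q) (y : Fin m → Fin q) :
    ∑ v : Fin q, fA q T (Function.update y i v) =
      ∑ v : Fin q, fA q (insert i T) (Function.update y i v) := by
  classical
  have hup : ∀ v : Fin q, ∀ j ∈ T, Function.update y i v j = y j := fun v j hj =>
    Function.update_of_ne (fun h : j = i => hi (by rw [← h]; exact hj)) _ _
  have h1 : ∀ v : Fin q, fA q T (Function.update y i v) = fA q T y := fun v =>
    fA_congr q T _ _ (hup v)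
  have h2 : ∀ v : Fin q, Set.InjOn (Function.update y i v) ((insert i T : Finset (Fin m)) :
      Set (Fin m)) ↔ Set.InjOn y (T : Set (Fin m)) ∧ v ∉ T.image y := by
    intro v
    rw [coe_insert, Set.injOn_insert (by simpa using hi)]
    have he : Set.EqOn (Function.update y i v) y (T : Set (Fin m)) :=
      fun j hj => hup v j (mem_coe.1 hj)
    rw [he.injOn_iff, he.image_eq, Function.update_self, ← coe_image, mem_coe]
  rw [sum_congr rfl fun v _ => h1 v, sum_const, card_univ, Fintype.card_fin, nsmul_eq_mul]
  by_cases hinj : Set.InjOn y (T : Set (Fin m))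
  · have h3 : ∀ v : Fin q, fA q (insert i T) (Function.update y i v) =
        if v ∉ T.image y then W q (T.card + 1) else 0 := by
      intro v
      unfold fA
      rw [card_insert_of_notMem hi]
      by_cases hv : v ∉ T.image y
      · rw [if_pos ((h2 v).2 ⟨hinj, hv⟩), if_pos hv]
      · rw [if_neg fun h => hv ((h2 v).1 h).2, if_neg hv]
    rw [sum_congr rfl fun v _ => h3 v, ← sum_filter, sum_const, nsmul_eq_mul]
    have h4 : ((univ : Finset (Fin q)).filter fun v => v ∉ T.image y) = (T.image y)ᶜ := by
      ext v
      simp
    have h5 : (T.image y).card = T.card := card_image_of_injOn hinj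
    rw [h4, card_compl, Fintype.card_fin, h5, Nat.cast_sub (by omega)]
    have h6 : fA q T y = W q T.card := by
      unfold fA
      rw [if_pos hinj]
    rw [h6]
    unfold W
    rw [prod_range_succ]
    have h7 : (0 : ℝ) < (q : ℝ) - T.card := by
      have : ((T.card + 1 : ℕ) : ℝ) ≤ q := by exact_mod_cast hT
      push_cast at this
      linarith
    field_simp
  · have h3 : ∀ v : Fin q, fA q (insert i T) (Function.update y i v) = 0 := by
      intro v
      unfold fA
      rw [if_neg fun h => hinj ((h2 v).1 h).1]
    rw [sum_congr rfl fun v _ => h3 v, sum_const_zero]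
    unfold fA
    rw [if_neg hinj, mul_zero]

/-- (AL1) -/
theorem pf_AL1 : T_AL1 := by
  classical
  intro m q A M hAM hq
  refine ⟨?_, ?_⟩
  · intro y y' h
    unfold eA
    refine sum_congr rfl fun L hL => ?_
    rw [fA_congr q (A ∪ L) y y' fun j hj => h j ?_]
    exact union_subset_union (Subset.refl A) (mem_powerset.1 hL) hj
  · intro i hi y
    have hiA : i ∉ A := fun h => (disjoint_left.1 hAM h) hi
    have hM : M = insert i (M.erase i) := (insert_erase hi).symm
    have hi' : i ∉ M.erase i := notMem_erase i M
    have hcard : (M.erase i).card + 1 = M.card := card_erase_add_one hi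
    generalize M.erase i = M' at hM hi' hcard
    subst hM
    unfold eA
    rw [sum_comm, sum_powerset_insert hi', ← sum_add_distrib]
    refine sum_eq_zero fun L hL => ?_
    have hL' : L ⊆ M' := mem_powerset.1 hL
    have hiL : i ∉ L := fun h => hi' (hL' h)
    have e1 : insert i M' \ L = insert i (M' \ L) := insert_sdiff_of_notMem _ hiL
    have e2 : insert i M' \ insert i L = M' \ L := by
      rw [insert_sdiff_insert]
      rw [sdiff_insert, erase_eq_of_notMem]
      intro h
      exact hi' (sdiff_subset h)
    have e3 : (insert i M' \ L).card = (M' \ L).card + 1 := by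
      rw [e1, card_insert_of_notMem]
      intro h
      exact hi' (sdiff_subset h)
    have e4 : A ∪ insert i L = insert i (A ∪ L) := union_insert i A L
    rw [e2, e3, e4, ← mul_sum, ← mul_sum, ← fA_sum q (A ∪ L) i]
    · rw [pow_succ]
      ring
    · rw [mem_union]
      rintro (h | h)
      · exact hiA h
      · exact hiL h
    · have h1 := card_union_le A L
      have h2 := card_le_card hL'
      rw [card_insert_of_notMem hi'] at hq
      omega

end Pool.Agent.H7.SHL
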